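import Pool.Agent.J6H23.RB.Core

/-!
# MP_ba7cc7_al: Rota–Baxter operators killing a maximal parabolic subalgebra, and associative algebras

An explicit description of all Rota–Baxter operators on `M_{n+1}(F)` of any weight that kill the maximal
parabolic subalgebra of the matrices with last row `(0, …, 0, *)` (they kill the diagonal), and the proof
that their classification is the same as (for nonzero weight) or contains (for weight zero) the
classification of associative algebras of dimension `n`. In particular there is no finite list.
-/

set_option autoImplicit false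

open Pool.Agent.J6H23.RB

namespace Pool.Agent.Results.MP_ba7cc7_al.AllAlgebras

theorem result (F : Type) [Field F] [CharZero F] (n : ℕ) (lam : F) :
    -- the operators killing the parabolic subalgebra
    (∀ R : Op F (n + 1), KillsParabolic R → (IsRotaBaxter lam R ↔ R = 0 ∨ FromDatum lam R)) ∧
    -- nonzero weight: each of them comes from an associative product on `F^n`
    (lam ≠ 0 → ∀ R : Op F (n + 1), KillsParabolic R → IsRotaBaxter lam R → R ≠ 0 →
      ∃ m : Product F n, IsAssoc m ∧ Equivalent R (algOp lam m)) ∧
    -- the operators of associative products on `F^n`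
    (∀ m : Product F n, IsAssoc m → IsRotaBaxter lam (algOp lam m) ∧ KillsParabolic (algOp lam m)) ∧
    (∀ m m' : Product F n, IsAssoc m → IsAssoc m' → (lam ≠ 0 ∨ IsFaithful m ∧ IsFaithful m') →
      ImageIs (algOp lam m) m ∧ (Equivalent (algOp lam m) (algOp lam m') ↔ IsIso m m')) ∧
    -- infinitely many inequivalent operators
    (4 ≤ n → ∃ R : ℕ → Op F (n + 1), (∀ k, IsRotaBaxter lam (R k) ∧ KillsParabolic (R k)) ∧
      ∀ k l, k ≠ l → ¬ Equivalent (R k) (R l)) :=
  ⟨fun R hP => parabolic_iff lam R hP,
    fun hl _ hP hR h0 => equivalent_op_of_kills hl hR hP h0,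
    fun m h => ⟨(parabolic_iff lam _ (algOp_kills lam m)).2 (Or.inr ⟨m, 0, 0, datum_zero lam h,
      fun _ => rfl⟩), algOp_kills lam m⟩,
    fun _ _ h h' hf => ⟨algOp_image lam h (hf.imp id And.left), algOp_classify lam h h' hf⟩,
    fun hn => infinitely_many lam n hn⟩

end Pool.Agent.Results.MP_ba7cc7_al.AllAlgebras
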