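import Pool.Agent.J6H23.RB.Tree

/-!
# MP_ba7cc7_al: the structure of the diagonal-preserving Rota–Baxter operators on `M_n(F)`

Weight zero: they are the inverses of bijective derivations `V → M_n(F) / K`, where `V` is a subalgebra
and `K` a `V`-bimodule containing the diagonal. Nonzero weight: they are given by an oriented rooted tree
with edges `1, …, n` and a subalgebra of `M_n(F) × M_n(F)` which is complementary to the diagonal copy of
`M_n(F)` and contains the idempotents of the vertices of the tree.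
-/

set_option autoImplicit false

open Matrix Module Pool.Agent.J6H23.RB

namespace Pool.Agent.Results.MP_ba7cc7_al.Structure

theorem result (F : Type) [Field F] [CharZero F] (n : ℕ)
    (R : Matrix (Fin n) (Fin n) F →ₗ[F] Matrix (Fin n) (Fin n) F) :
    -- weight zero
    ((IsRotaBaxter 0 R ∧ PreservesDiagonal R) ↔
      ∃ (V K : Submodule F (Matrix (Fin n) (Fin n) F))
        (δ : Matrix (Fin n) (Fin n) F →ₗ[F] Matrix (Fin n) (Fin n) F),
        (∀ X ∈ V, ∀ Y ∈ V, X * Y ∈ V) ∧ (∀ d, diagonal d ∈ K) ∧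
        (∀ X ∈ V, ∀ Y ∈ K, X * Y ∈ K ∧ Y * X ∈ K) ∧
        (∀ X ∈ V, ∀ Y ∈ V, δ (X * Y) - (δ X * Y + X * δ Y) ∈ K) ∧
        (∀ Z, ∃ X ∈ V, Z - δ X ∈ K) ∧ (∀ X ∈ V, R (δ X) = X) ∧ (∀ Y ∈ K, R Y = 0)) ∧
    (IsRotaBaxter 0 R → PreservesDiagonal R → (∀ d, R (diagonal d) = 0) ∧ ∀ X, R (R X) = 0) ∧
    -- nonzero weight
    ∀ lam : F, lam ≠ 0 →
      ((IsRotaBaxter lam R ∧ PreservesDiagonal R) ↔
        ∃ (h t : Fin n → Option (Fin n))
          (B : Submodule F (Matrix (Fin n) (Fin n) F × Matrix (Fin n) (Fin n) F)),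
          IsRootedTree F h t ∧ (∀ v, (vertexIdem F h v, vertexIdem F t v) ∈ B) ∧
          (∀ X ∈ B, ∀ Y ∈ B, X * Y ∈ B) ∧ (∀ Z, (Z, Z) ∈ B → Z = 0) ∧
          ∀ X, (R X, R X + lam • X) ∈ B) ∧
      ∀ (h t : Fin n → Option (Fin n))
        (B : Submodule F (Matrix (Fin n) (Fin n) F × Matrix (Fin n) (Fin n) F)),
        (∀ v, (vertexIdem F h v, vertexIdem F t v) ∈ B) → (∀ X ∈ B, ∀ Y ∈ B, X * Y ∈ B) →
        (∀ Z, (Z, Z) ∈ B → Z = 0) → (∀ X, (R X, R X + lam • X) ∈ B) →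
        ∀ g : Option (Fin n) → Option (Fin n) → F, (∀ i j, g (h i) (h j) = g (t i) (t j)) →
          ∀ X, R (Matrix.of fun i j => g (h i) (h j) * X i j) =
            Matrix.of fun i j => g (h i) (h j) * R X i j :=
  ⟨weight_zero_iff R, weight_zero R, fun _ hl => ⟨preserves_iff hl R,
    fun _ _ _ hE hmul hdiag hRB g hg X => hadamard hE hmul hdiag hRB g hg X⟩⟩

end Pool.Agent.Results.MP_ba7cc7_al.Structure
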